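import Pool.Agent.Helper48.CR.Goals

set_option autoImplicit false

/-!
# Packet FB1 (MP_69be96_nt): monotonicity and log-concavity of `FL`
-/

namespace Pool.Agent.Helper26.CR

open Pool.Agent.Helper48.CR

/-- The inductive invariant. -/
structure Inv (F : ℕ → ℝ) (J : ℕ) : Prop where
  zero : F 0 = 1
  nonneg : ∀ j ≤ J, 0 ≤ F j
  anti : ∀ j, j + 1 ≤ J → F (j + 1) ≤ F j
  lc : ∀ j, j + 2 ≤ J → F j * F (j + 2) ≤ F (j + 1) ^ 2

lemma Inv.step {F : ℕ → ℝ} {J : ℕ} (h : Inv F J) {x : ℝ} (hx : 0 ≤ x) (hJ : J * x ≤ 1) :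
    Inv (fun j => (1 - j * x) * F j + j * x * F (j - 1)) J := by
  have hle : ∀ j : ℕ, j ≤ J → (j : ℝ) * x ≤ 1 := fun j hj =>
    (mul_le_mul_of_nonneg_right (by exact_mod_cast hj) hx).trans hJ
  have hnn : ∀ j : ℕ, 0 ≤ (j : ℝ) * x := fun j => mul_nonneg (Nat.cast_nonneg j) hx
  have hG : ∀ j ≤ J, 0 ≤ (1 - (j : ℝ) * x) * F j + j * x * F (j - 1) := fun j hj =>
    add_nonneg (mul_nonneg (by linarith [hle j hj]) (h.nonneg j hj))
      (mul_nonneg (hnn j) (h.nonneg _ (by omega)))
  refine ⟨?_, hG, ?_, ?_⟩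
  · simp [h.zero]
  · intro j hj
    have h1 := h.anti j hj
    have h2 := hle (j + 1) hj
    have h3 : (j : ℝ) * x * (F (j - 1) - F j) ≥ 0 := by
      rcases Nat.eq_zero_or_pos j with rfl | hj0
      · simp
      · obtain ⟨k, rfl⟩ : ∃ k, j = k + 1 := ⟨j - 1, by omega⟩
        have := h.anti k (by omega)
        simp only [Nat.add_sub_cancel]
        exact mul_nonneg (hnn _) (by linarith)
    simp only [Nat.add_sub_cancel]
    push_cast at h2 ⊢
    nlinarith [mul_nonneg (show (0 : ℝ) ≤ 1 - ((j : ℝ) + 1) * x by linarith)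
      (show (0 : ℝ) ≤ F j - F (j + 1) by linarith)]
  · intro j hj
    have hb0 := h.nonneg j (by omega)
    have hc0 := h.nonneg (j + 1) (by omega)
    have hd0 := h.nonneg (j + 2) hj
    have hcb := h.anti j (by omega)
    have hdc := h.anti (j + 1) hj
    have hbd := h.lc j hj
    have hu := hle (j + 2) hj
    have hjx := hnn j
    have hac : (j : ℝ) * x * (F (j - 1) * F (j + 1)) ≤ j * x * (F j ^ 2) := by
      rcases Nat.eq_zero_or_pos j with rfl | hj0
      · simp
      · obtain ⟨k, rfl⟩ : ∃ k, j = k + 1 := ⟨j - 1, by omega⟩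
        have := h.lc k (by omega)
        simp only [Nat.add_sub_cancel]
        exact mul_le_mul_of_nonneg_left this (hnn _)
    have hG0 := hG j (by omega)
    have hG2 := hG (j + 2) hj
    have e1 : j + 2 - 1 = j + 1 := by omega
    have e2 : j + 1 - 1 = j := by omega
    simp only [e1, e2] at hG2 ⊢
    set a := F (j - 1)
    set b := F j
    set c := F (j + 1)
    set d := F (j + 2)
    push_cast at hu hG2 ⊢
    rcases hc0.eq_or_lt with hc | hc
    · have hd : d = 0 := le_antisymm (by rw [hc]; exact hdc) hd0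
      rw [hd, ← hc]
      simp only [mul_zero, add_zero, zero_add]
      positivity
    · have hb : 0 < b := hc.trans_le hcb
      have k1 : c * ((1 - (j : ℝ) * x) * b + j * x * a) ≤ b * ((1 - j * x) * c + j * x * b) := by
        nlinarith
      have k2 : b * ((1 - ((j : ℝ) + 2) * x) * d + (j + 2) * x * c) ≤
          c * ((1 - (j + 2) * x) * c + (j + 2) * x * b) := by
        have := mul_le_mul_of_nonneg_left hbd
          (show (0 : ℝ) ≤ 1 - ((j : ℝ) + 2) * x by linarith)
        nlinarith
      have k3 := mul_le_mul k1 k2 (mul_nonneg hb.le hG2)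
        (mul_nonneg hb.le (add_nonneg (mul_nonneg (by nlinarith) hc.le) (mul_nonneg hjx hb.le)))
      have hbc : 0 < b * c := mul_pos hb hc
      have k4 : ((1 - (j : ℝ) * x) * c + j * x * b) * ((1 - (j + 2) * x) * c + (j + 2) * x * b) ≤
          ((1 - ((j : ℝ) + 1) * x) * c + (j + 1) * x * b) ^ 2 := by
        nlinarith [sq_nonneg (x * (b - c))]
      have k5 : (b * c) * (((1 - (j : ℝ) * x) * b + j * x * a) *
          ((1 - ((j : ℝ) + 2) * x) * d + (j + 2) * x * c)) ≤
          (b * c) * (((1 - (j : ℝ) * x) * c + j * x * b) *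
            ((1 - (j + 2) * x) * c + (j + 2) * x * b)) := by
        calc _ = c * ((1 - (j : ℝ) * x) * b + j * x * a) *
              (b * ((1 - ((j : ℝ) + 2) * x) * d + (j + 2) * x * c)) := by ring
          _ ≤ _ := k3
          _ = _ := by ring
      exact (le_of_mul_le_mul_left k5 hbc).trans k4

lemma inv_FL (L : List ℝ) (J : ℕ) (h : ∀ x ∈ L, 0 ≤ x ∧ J * x ≤ 1) : Inv (FL L) J := by
  induction L with
  | nil =>
    refine ⟨by simp [FL], fun j _ => ?_, fun j _ => ?_, fun j _ => ?_⟩
    · simp only [FL]; split_ifs <;> norm_num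
    · have h0 : FL [] (j + 1) = 0 := by simp [FL]
      rw [h0]
      simp only [FL]
      split_ifs <;> norm_num
    · simp [FL]
  | cons x L ih =>
    have h1 := (ih fun y hy => h y (List.mem_cons_of_mem _ hy)).step (h x List.mem_cons_self).1
      (h x List.mem_cons_self).2
    exact h1

lemma Inv.ratio {F : ℕ → ℝ} {J : ℕ} (h : Inv F J) (m n : ℕ) (hJ : m + n + 1 ≤ J) :
    F (m + n + 1) * F m ≤ F (m + n) * F (m + 1) := by
  induction n with
  | zero => simp only [add_zero]; rw [mul_comm]
  | succ n ih =>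
    have h1 := ih (by omega)
    have h2 := h.lc (m + n) (by omega)
    have hk := h.nonneg (m + n) (by omega)
    have hk1 := h.nonneg (m + n + 1) (by omega)
    have hk2 := h.nonneg (m + n + 2) (by omega)
    have hm := h.nonneg m (by omega)
    have hm1 := h.nonneg (m + 1) (by omega)
    have ha := h.anti (m + n) (by omega)
    have hb := h.anti (m + n + 1) (by omega)
    have e1 : m + (n + 1) + 1 = m + n + 2 := by omega
    have e2 : m + (n + 1) = m + n + 1 := by omega
    rw [e1, e2]
    rcases hk.eq_or_lt with h0 | h0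
    · have z1 : F (m + n + 1) = 0 := le_antisymm (by rw [h0]; exact ha) hk1
      have z2 : F (m + n + 2) = 0 := le_antisymm (by rw [← z1]; exact hb) hk2
      rw [z1, z2]; simp
    · have h3 : F (m + n) * (F (m + n + 2) * F m) ≤ F (m + n) * (F (m + n + 1) * F (m + 1)) := by
        calc F (m + n) * (F (m + n + 2) * F m) = (F (m + n) * F (m + n + 2)) * F m := by ring
          _ ≤ F (m + n + 1) ^ 2 * F m := mul_le_mul_of_nonneg_right h2 hm
          _ = F (m + n + 1) * (F (m + n + 1) * F m) := by ring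
          _ ≤ F (m + n + 1) * (F (m + n) * F (m + 1)) := mul_le_mul_of_nonneg_left h1 hk1
          _ = _ := by ring
      exact le_of_mul_le_mul_left h3 h0

lemma Inv.submul {F : ℕ → ℝ} {J : ℕ} (h : Inv F J) (i j : ℕ) (hJ : i + j ≤ J) :
    F (i + j) ≤ F i * F j := by
  induction i with
  | zero => simp [h.zero]
  | succ i ih =>
    have h1 := ih (by omega)
    have hi := h.nonneg i (by omega)
    have hi1 := h.nonneg (i + 1) (by omega)
    have hj := h.nonneg j (by omega)
    have h2 := h.ratio i j (by omega)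
    have hn := h.nonneg (i + j + 1) (by omega)
    have e1 : i + 1 + j = i + j + 1 := by omega
    rw [e1]
    rcases hi.eq_or_lt with h0 | h0
    · rw [← h0, zero_mul] at h1
      have := h.anti (i + j) (by omega)
      have : F (i + j + 1) ≤ 0 := this.trans h1
      exact this.trans (mul_nonneg hi1 hj)
    · have h3 : F i * F (i + j + 1) ≤ F i * (F (i + 1) * F j) := by
        calc F i * F (i + j + 1) = F (i + j + 1) * F i := by ring
          _ ≤ F (i + j) * F (i + 1) := h2
          _ ≤ (F i * F j) * F (i + 1) := mul_le_mul_of_nonneg_right h1 hi1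
          _ = _ := by ring
      exact le_of_mul_le_mul_left h3 h0

lemma Inv.le_one {F : ℕ → ℝ} {J : ℕ} (h : Inv F J) (j : ℕ) (hJ : j ≤ J) : F j ≤ 1 := by
  induction j with
  | zero => exact h.zero.le
  | succ j ih => exact (h.anti j hJ).trans (ih (by omega))

theorem fb1 : FB1G := by
  intro L J hL
  have h := inv_FL L J hL
  exact ⟨fun j hj => ⟨h.nonneg j hj, h.le_one j hj⟩, h.anti, h.lc, h.submul⟩

end Pool.Agent.Helper26.CR
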